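import Pool.Agent.R49.MC.Asy

/-!
Collision counts of the set of the multinomial coefficients with upper entry `n`.

Both normalised sequences `a(n) = C(n) / (n^2 log n)` and `b(n) = D(n) / (n^(3/2) sqrt(log n))`
tend to infinity; in fact `D(n)` and `C(n)` grow faster than every power of `n`.

* `10 + 30 = 20 + 20` (multinomial coefficients with upper entry 5) multiplied by the members of
  the set for `n - 5` gives `M(n-5)` sums with two representations, so `M(n-5) <= D(n)`.
* `M(n) >= mu(n)`, the largest number of representations of one number, and `mu(n)` is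
  superpolynomial by the pigeonhole principle applied to the numbers `q u`, `u` a product of `j`
  distinct primes up to `sqrt n`, where `q = n! / ∏ p!`.
-/

set_option autoImplicit false

namespace Pool.Agent.Results.MP_dccd56_co.CollisionDivergence

open Filter Pool.Agent.R49.MC

theorem result :
    Tendsto (fun n : ℕ => (C n : ℝ) / ((n : ℝ) ^ 2 * Real.log n)) atTop atTop ∧
    Tendsto (fun n : ℕ => (D n : ℝ) / ((n : ℝ) ^ ((3 : ℝ) / 2) * Real.sqrt (Real.log n)))
      atTop atTop ∧
    (∀ A : ℕ, ∀ᶠ n : ℕ in atTop, n ^ A ≤ D n) ∧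
    (∀ n : ℕ, 5 ≤ n → M (n - 5) ≤ D n ∧ D n ≤ C n ∧ C n ≤ M n ^ 2) :=
  ⟨tendsto_div 3 C_superpoly g1, tendsto_div 3 D_superpoly g2, D_superpoly,
    fun n hn => ⟨M_le_D n hn, D_le_C n, C_le n⟩⟩

end Pool.Agent.Results.MP_dccd56_co.CollisionDivergence
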